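import Mathlib

/-! Real analysis for the choice of a typical corner (ns_notes_39b (0.1), ns_notes_55b (4.1), (4.2)). -/

namespace Pool.Agent.Helper54.NS

open MeasureTheory Set Filter Topology
open scoped ENNReal NNReal

/-- a function that expands distances does not decrease the outer measure -/
theorem vol_le_image {η : ℝ → ℝ} {A : Set ℝ}
    (h : ∀ c ∈ A, ∀ c' ∈ A, c < c' → c' - c ≤ η c' - η c) : volume A ≤ volume (η '' A) := by
  classical
  have hexp : ∀ c ∈ A, ∀ c' ∈ A, |c' - c| ≤ |η c' - η c| := by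
    intro c hc c' hc'
    rcases lt_trichotomy c c' with hlt | heq | hgt
    · have := h c hc c' hc' hlt
      rw [abs_of_pos (sub_pos.2 hlt)]
      exact this.trans (le_abs_self _)
    · subst heq; simp
    · have := h c' hc' c hc hgt
      rw [abs_sub_comm, abs_sub_comm (η c') (η c), abs_of_pos (sub_pos.2 hgt)]
      exact this.trans (le_abs_self _)
  have hinj : InjOn η A := by
    intro c hc c' hc' he
    have := hexp c hc c' hc'
    rw [he, sub_self, abs_zero] at this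
    have h0 : c' - c = 0 := abs_eq_zero.1 (le_antisymm this (abs_nonneg _))
    linarith
  rcases A.eq_empty_or_nonempty with h0 | hne
  · subst h0; simp
  let g : ℝ → ℝ := Function.invFunOn η A
  have hg1 : ∀ c ∈ A, g (η c) = c := fun c hc => hinj.leftInvOn_invFunOn hc
  have hL : LipschitzOnWith 1 g (η '' A) := by
    refine LipschitzOnWith.of_dist_le_mul ?_
    rintro _ ⟨c, hc, rfl⟩ _ ⟨c', hc', rfl⟩
    rw [hg1 c hc, hg1 c' hc', Real.dist_eq, Real.dist_eq, NNReal.coe_one, one_mul]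
    rw [abs_sub_comm, abs_sub_comm (η c) (η c')]
    exact hexp c hc c' hc'
  have himg : g '' (η '' A) = A := by
    ext x
    constructor
    · rintro ⟨_, ⟨c, hc, rfl⟩, rfl⟩
      rw [hg1 c hc]; exact hc
    · intro hx
      exact ⟨η x, ⟨x, hx, rfl⟩, hg1 x hx⟩
  have := hL.hausdorffMeasure_image_le (d := 1) zero_le_one
  rw [himg, ← hausdorffMeasure_real] at *
  simpa using this

/-- **39b (0.1).** `η` expands (SPEED), `η < l`, `l - η ≤ C (c₀ - c)` (LIP), `E` has density one at `l-`;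
then in every left neighbourhood of `c₀` there are `c` with any a.e. property and `η c ∈ E`. -/
theorem exists_mem_density {η : ℝ → ℝ} {c₀ d₀ C l : ℝ} {E : Set ℝ} (hd₀ : 0 < d₀)
    (hsp : ∀ c ∈ Ioo (c₀ - d₀) c₀, ∀ c' ∈ Ioo (c₀ - d₀) c₀, c < c' → c' - c ≤ η c' - η c)
    (hlt : ∀ c ∈ Ioo (c₀ - d₀) c₀, η c < l)
    (hlip : ∀ c ∈ Ioo (c₀ - d₀) c₀, l - η c ≤ C * (c₀ - c))
    (hden : Tendsto (fun δ : ℝ => volume (Ioo (l - δ) l \ E) / ENNReal.ofReal δ) (𝓝[>] 0) (𝓝 0))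
    {P : ℝ → Prop} (hP : ∀ᵐ c, c ∈ Ioo (c₀ - d₀) c₀ → P c) {δ : ℝ} (hδ : 0 < δ) :
    ∃ c ∈ Ioo (c₀ - δ) c₀, c ∈ Ioo (c₀ - d₀) c₀ ∧ P c ∧ η c ∈ E := by
  -- a positive constant
  obtain ⟨C', hC', hC'1⟩ : ∃ C' : ℝ, C ≤ C' ∧ 1 ≤ C' := ⟨max C 1, le_max_left _ _, le_max_right _ _⟩
  have hC'0 : 0 < C' := lt_of_lt_of_le one_pos hC'1
  -- small scale
  have hev : ∀ᶠ δ₁ in 𝓝[>] (0 : ℝ), volume (Ioo (l - δ₁) l \ E) / ENNReal.ofReal δ₁
      < ENNReal.ofReal (1 / C') :=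
    hden.eventually (gt_mem_nhds (ENNReal.ofReal_pos.2 (by positivity)))
  have hev2 : ∀ᶠ δ₁ in 𝓝[>] (0 : ℝ), δ₁ < C' * min δ d₀ :=
    mem_nhdsWithin_of_mem_nhds (Iio_mem_nhds (by positivity))
  have hev3 : ∀ᶠ δ₁ in 𝓝[>] (0 : ℝ), 0 < δ₁ := self_mem_nhdsWithin
  obtain ⟨δ₁, h1, h2, h3⟩ := (hev.and (hev2.and hev3)).exists
  set s : ℝ := δ₁ / C' with hs
  have hs0 : 0 < s := div_pos h3 hC'0
  have hsmin : s < min δ d₀ := by rw [hs, div_lt_iff₀ hC'0, mul_comm]; exact h2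
  have hsδ : s < δ := hsmin.trans_le (min_le_left _ _)
  have hsd : s < d₀ := hsmin.trans_le (min_le_right _ _)
  have hsub : Ioo (c₀ - s) c₀ ⊆ Ioo (c₀ - d₀) c₀ := Ioo_subset_Ioo_left (by linarith)
  set Bad : Set ℝ := {c | c ∈ Ioo (c₀ - s) c₀ ∧ η c ∉ E} with hBad
  have himg : η '' Bad ⊆ Ioo (l - δ₁) l \ E := by
    rintro _ ⟨c, ⟨hc, hcE⟩, rfl⟩
    refine ⟨⟨?_, hlt c (hsub hc)⟩, hcE⟩
    have hl := hlip c (hsub hc)
    have h4 : C * (c₀ - c) ≤ C' * (c₀ - c) := mul_le_mul_of_nonneg_right hC' (by linarith [hc.2])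
    have h5 : C' * (c₀ - c) < C' * s := mul_lt_mul_of_pos_left (by linarith [hc.1]) hC'0
    have h6 : C' * s = δ₁ := by rw [hs]; field_simp
    linarith
  have hvol : volume Bad < ENNReal.ofReal s := by
    have hb : volume Bad ≤ volume (Ioo (l - δ₁) l \ E) :=
      (vol_le_image (fun c hc c' hc' hcc => hsp c (hsub hc.1) c' (hsub hc'.1) hcc)).trans
        (measure_mono himg)
    refine lt_of_le_of_lt hb ?_
    rw [ENNReal.div_lt_iff (Or.inl (ENNReal.ofReal_pos.2 h3).ne') (Or.inl ENNReal.ofReal_ne_top)] at h1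
    refine lt_of_lt_of_eq h1 ?_
    rw [← ENNReal.ofReal_mul (by positivity)]
    congr 1
    rw [hs]; ring
  -- the good set is not null
  by_contra hno
  push Not at hno
  have hcov : Ioo (c₀ - s) c₀ ⊆ Bad ∪ {c | ¬ (c ∈ Ioo (c₀ - d₀) c₀ → P c)} := by
    intro c hc
    by_cases hE : η c ∈ E
    · right
      intro hPc
      exact hno c ⟨by linarith [hc.1], hc.2⟩ (hsub hc) (hPc (hsub hc)) hE
    · exact Or.inl ⟨hc, hE⟩
  have h7 : volume (Ioo (c₀ - s) c₀) ≤ volume Bad + 0 := by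
    refine (measure_mono hcov).trans ((measure_union_le _ _).trans ?_)
    gcongr
    exact le_of_eq (ae_iff.1 hP)
  rw [Real.volume_Ioo, add_zero] at h7
  have h8 : c₀ - (c₀ - s) = s := by ring
  rw [h8] at h7
  exact absurd h7 (not_le.2 hvol)


/-- almost every point of a measurable set is a left density point, in the form used above -/
theorem ae_left_density {E : Set ℝ} (hE : MeasurableSet E) :
    ∀ᵐ l, l ∈ E →
      Tendsto (fun δ : ℝ => volume (Ioo (l - δ) l \ E) / ENNReal.ofReal δ) (𝓝[>] 0) (𝓝 0) := by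
  have h := IsUnifLocDoublingMeasure.ae_tendsto_measure_inter_div volume E 1
  rw [ae_restrict_iff' hE] at h
  filter_upwards [h] with l hl hlE
  have h1 : Tendsto (fun δ : ℝ => δ / 2) (𝓝[>] 0) (𝓝[>] 0) := by
    refine tendsto_nhdsWithin_iff.2 ⟨?_, ?_⟩
    · have : Tendsto (fun δ : ℝ => δ / 2) (𝓝 0) (𝓝 (0 / 2)) := tendsto_id.div_const 2
      rw [zero_div] at this
      exact this.mono_left nhdsWithin_le_nhds
    · filter_upwards [self_mem_nhdsWithin] with δ hδ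
      exact half_pos (mem_Ioi.1 hδ)
  have h2 := hl hlE (fun δ : ℝ => l - δ / 2) (fun δ : ℝ => δ / 2) h1 (by
    filter_upwards [self_mem_nhdsWithin] with δ hδ
    have hδ' : (0 : ℝ) < δ := hδ
    rw [Metric.mem_closedBall, Real.dist_eq, show l - (l - δ / 2) = δ / 2 by ring,
      abs_of_pos (half_pos hδ'), one_mul])
  have h3 : Tendsto (fun δ : ℝ => (1 : ℝ≥0∞) - volume (E ∩ Metric.closedBall (l - δ / 2) (δ / 2)) /
      volume (Metric.closedBall (l - δ / 2) (δ / 2))) (𝓝[>] 0) (𝓝 (1 - 1)) :=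
    ENNReal.Tendsto.sub tendsto_const_nhds h2 (Or.inl ENNReal.one_ne_top)
  rw [tsub_self] at h3
  refine tendsto_of_tendsto_of_tendsto_of_le_of_le' tendsto_const_nhds h3
    (Eventually.of_forall fun _ => bot_le) ?_
  filter_upwards [self_mem_nhdsWithin] with δ hδ
  have hδ' : (0 : ℝ) < δ := hδ
  have hvb : volume (Metric.closedBall (l - δ / 2) (δ / 2)) = ENNReal.ofReal δ := by
    rw [Real.volume_closedBall]; congr 1; ring
  have hball : Metric.closedBall (l - δ / 2) (δ / 2) = Icc (l - δ) l := by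
    rw [Real.closedBall_eq_Icc]; congr 1 <;> ring
  rw [hvb]
  have hδ0 : ENNReal.ofReal δ ≠ 0 := (ENNReal.ofReal_pos.2 hδ').ne'
  have hsub : Ioo (l - δ) l \ E ⊆ Metric.closedBall (l - δ / 2) (δ / 2) \ (E ∩ Metric.closedBall (l - δ / 2) (δ / 2)) := by
    rintro x ⟨hx, hxE⟩
    refine ⟨?_, fun hx' => hxE hx'.1⟩
    rw [hball]; exact ⟨hx.1.le, hx.2.le⟩
  have hm : volume (Metric.closedBall (l - δ / 2) (δ / 2) \ (E ∩ Metric.closedBall (l - δ / 2) (δ / 2)))
      = volume (Metric.closedBall (l - δ / 2) (δ / 2)) - volume (E ∩ Metric.closedBall (l - δ / 2) (δ / 2)) := by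
    refine measure_sdiff inter_subset_right (hE.inter measurableSet_closedBall).nullMeasurableSet ?_
    refine ne_of_lt (lt_of_le_of_lt (measure_mono inter_subset_right) ?_)
    rw [hvb]; exact ENNReal.ofReal_lt_top
  calc volume (Ioo (l - δ) l \ E) / ENNReal.ofReal δ
      ≤ (ENNReal.ofReal δ - volume (E ∩ Metric.closedBall (l - δ / 2) (δ / 2))) / ENNReal.ofReal δ := by
        gcongr
        rw [← hvb, ← hm]
        exact measure_mono hsub
    _ = 1 - volume (E ∩ Metric.closedBall (l - δ / 2) (δ / 2)) / ENNReal.ofReal δ := by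
        rw [ENNReal.sub_div (fun _ _ => hδ0), ENNReal.div_self hδ0 ENNReal.ofReal_ne_top]

/-- a monotone function on an open interval is differentiable almost everywhere -/
theorem ae_diff_of_mono {η : ℝ → ℝ} {u v : ℝ} (h : MonotoneOn η (Ioo u v)) :
    ∀ᵐ c, c ∈ Ioo u v → DifferentiableAt ℝ η c := by
  filter_upwards [h.ae_differentiableWithinAt_of_mem] with c hc hm
  exact (hc hm).differentiableAt (Ioo_mem_nhds hm.1 hm.2)

/-- derivative of an expanding function is at least one -/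
theorem one_le_deriv {η : ℝ → ℝ} {u v c w : ℝ}
    (hsp : ∀ c ∈ Ioo u v, ∀ c' ∈ Ioo u v, c < c' → c' - c ≤ η c' - η c)
    (hc : c ∈ Ioo u v) (hd : HasDerivAt η w c) : 1 ≤ w := by
  have h1 : Tendsto (slope η c) (𝓝[>] c) (𝓝 w) :=
    (hasDerivAt_iff_tendsto_slope.1 hd).mono_left (nhdsWithin_mono _ fun x hx => (ne_of_gt hx))
  refine ge_of_tendsto h1 ?_
  filter_upwards [Ioo_mem_nhdsGT hc.2] with x hx
  rw [slope_def_field, le_div_iff₀ (sub_pos.2 hx.1), one_mul]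
  exact hsp c hc x ⟨hc.1.trans hx.1, hx.2⟩ hx.1

/-- **39b (0.1), final form.** A corner `c` arbitrarily near to `c₀`: `η` has a finite derivative `w ≥ 1` at `c`, `y` has
a derivative at most `b` at the level `η c`, all functions `F i` (countably many, monotone) are differentiable at `c`. -/
theorem exists_corner {η y : ℝ → ℝ} {c₀ d₀ C l b : ℝ} (hd₀ : 0 < d₀)
    (hsp : ∀ c ∈ Ioo (c₀ - d₀) c₀, ∀ c' ∈ Ioo (c₀ - d₀) c₀, c < c' → c' - c ≤ η c' - η c)
    (hlt : ∀ c ∈ Ioo (c₀ - d₀) c₀, η c < l)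
    (hlip : ∀ c ∈ Ioo (c₀ - d₀) c₀, l - η c ≤ C * (c₀ - c))
    (hden : Tendsto (fun δ : ℝ => volume (Ioo (l - δ) l \ {r | ∃ y' ≤ b, HasDerivAt y y' r}) /
      ENNReal.ofReal δ) (𝓝[>] 0) (𝓝 0))
    {ι : Type*} [Countable ι] (F : ι → ℝ → ℝ) (hF : ∀ i, MonotoneOn (F i) (Ioo (c₀ - d₀) c₀))
    {P : ℝ → Prop} (hP : ∀ᵐ c, c ∈ Ioo (c₀ - d₀) c₀ → P c) {δ : ℝ} (hδ : 0 < δ) :
    ∃ c ∈ Ioo (c₀ - δ) c₀, c ∈ Ioo (c₀ - d₀) c₀ ∧ P c ∧ (∃ w, 1 ≤ w ∧ HasDerivAt η w c) ∧
      (∀ i, DifferentiableAt ℝ (F i) c) ∧ ∃ y' ≤ b, HasDerivAt y y' (η c) := by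
  have hmono : MonotoneOn η (Ioo (c₀ - d₀) c₀) := by
    intro c hc c' hc' hcc
    rcases hcc.lt_or_eq with h | h
    · have := hsp c hc c' hc' h
      linarith
    · rw [h]
  have hQ : ∀ᵐ c, c ∈ Ioo (c₀ - d₀) c₀ →
      (P c ∧ DifferentiableAt ℝ η c ∧ ∀ i, DifferentiableAt ℝ (F i) c) := by
    filter_upwards [hP, ae_diff_of_mono hmono, ae_all_iff.2 fun i => ae_diff_of_mono (hF i)]
      with c h1 h2 h3 hc
    exact ⟨h1 hc, h2 hc, fun i => h3 i hc⟩
  obtain ⟨c, hc, hcd, ⟨hPc, hη, hFc⟩, hE⟩ := exists_mem_density hd₀ hsp hlt hlip hden hQ hδ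
  exact ⟨c, hc, hcd, hPc, ⟨deriv η c, one_le_deriv hsp hcd hη.hasDerivAt, hη.hasDerivAt⟩, hFc, hE⟩

/-- a Lipschitz function whose mean slope on `[p, q]` is less than `b` has derivative at most `b` on a set of positive
measure -/
theorem pos_meas_deriv {y : ℝ → ℝ} {K : ℝ≥0} {b p q : ℝ} (hpq : p < q) (hy : LipschitzOnWith K y (Icc p q))
    (hb : y q - y p < b * (q - p)) :
    0 < volume {r | r ∈ Ioo p q ∧ DifferentiableAt ℝ y r ∧ deriv y r ≤ b} := by
  by_contra h0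
  have h0' : volume {r | r ∈ Ioo p q ∧ DifferentiableAt ℝ y r ∧ deriv y r ≤ b} = 0 :=
    le_antisymm (not_lt.1 h0) bot_le
  have hac : AbsolutelyContinuousOnInterval y p q := by
    apply LipschitzOnWith.absolutelyContinuousOnInterval
    rwa [uIcc_of_le hpq.le]
  have hint := hac.integral_deriv_eq_sub
  have hdi := hac.ae_differentiableAt
  have hbd : b * (q - p) ≤ ∫ x in p..q, deriv y x := by
    have hbb : ∫ _x in p..q, b = b * (q - p) := by
      rw [intervalIntegral.integral_const, smul_eq_mul, mul_comm]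
    rw [← hbb]
    refine intervalIntegral.integral_mono_ae_restrict hpq.le (by simp) hac.intervalIntegrable_deriv ?_
    rw [EventuallyLE, ae_restrict_iff' measurableSet_Icc]
    have hn : ∀ᵐ x : ℝ, ¬ (x ∈ Ioo p q ∧ DifferentiableAt ℝ y x ∧ deriv y x ≤ b) := by
      rw [ae_iff]; simpa [and_assoc] using h0'
    have he : ∀ᵐ x : ℝ, x ≠ p ∧ x ≠ q := by
      rw [ae_iff]
      refine measure_mono_null (t := {p, q}) ?_ (Set.Finite.measure_zero (by simp) _)
      intro x hx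
      simp only [mem_ofPred_eq, not_and_or, not_not] at hx
      simpa using hx
    filter_upwards [hn, hdi, he] with x h1 h2 h3 hx
    by_contra hlt
    have hlt' : deriv y x ≤ b := (not_le.1 hlt).le
    refine h1 ⟨⟨lt_of_le_of_ne hx.1 (Ne.symm h3.1), lt_of_le_of_ne hx.2 h3.2⟩, h2 ?_, hlt'⟩
    rw [uIcc_of_le hpq.le]; exact hx
  linarith

/-- the set of levels with derivative at most `b` is measurable -/
theorem meas_level (y : ℝ → ℝ) (b : ℝ) : MeasurableSet {r | ∃ y' ≤ b, HasDerivAt y y' r} := by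
  have : {r | ∃ y' ≤ b, HasDerivAt y y' r} = {r | DifferentiableAt ℝ y r} ∩ {r | deriv y r ≤ b} := by
    ext r
    constructor
    · rintro ⟨y', h1, h2⟩
      exact ⟨h2.differentiableAt, by rw [mem_ofPred_eq, h2.deriv]; exact h1⟩
    · rintro ⟨h1, h2⟩
      exact ⟨deriv y r, h2, h1.hasDerivAt⟩
  rw [this]
  exact (measurableSet_of_differentiableAt ℝ y).inter (measurableSet_le (measurable_deriv y) measurable_const)

/-- choice of the truncation level `l`: any property of almost all levels may be required -/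
theorem exists_level {y : ℝ → ℝ} {K : ℝ≥0} {b p q : ℝ} (hpq : p < q) (hy : LipschitzOnWith K y (Icc p q))
    (hb : y q - y p < b * (q - p)) {Q : ℝ → Prop} (hQ : ∀ᵐ l, Q l) :
    ∃ l ∈ Ioo p q, Q l ∧ (∃ y' ≤ b, HasDerivAt y y' l) ∧
      Tendsto (fun δ : ℝ => volume (Ioo (l - δ) l \ {r | ∃ y' ≤ b, HasDerivAt y y' r}) /
        ENNReal.ofReal δ) (𝓝[>] 0) (𝓝 0) := by
  have h1 := pos_meas_deriv hpq hy hb
  have h2 := ae_left_density (meas_level y b)
  by_contra hno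
  push Not at hno
  have : volume {r | r ∈ Ioo p q ∧ DifferentiableAt ℝ y r ∧ deriv y r ≤ b} = 0 := by
    have h3 : ∀ᵐ r : ℝ, ¬ (r ∈ Ioo p q ∧ DifferentiableAt ℝ y r ∧ deriv y r ≤ b) := by
      filter_upwards [h2, hQ] with r hr hq ⟨ha, hb', hc⟩
      have he : r ∈ {r | ∃ y' ≤ b, HasDerivAt y y' r} := ⟨deriv y r, hc, hb'.hasDerivAt⟩
      exact hno r ha hq he (hr he)
    rw [ae_iff] at h3
    simpa [and_assoc] using h3
  rw [this] at h1
  exact lt_irrefl _ h1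

end Pool.Agent.Helper54.NS
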