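import Pool.Agent.Helper54.NS.Dens

/-! Levels with constant rates and bad cells (ns_notes_55b (4.1), (4.2)). -/

namespace Pool.Agent.Helper54.NS

open MeasureTheory Set Filter Topology
open scoped ENNReal NNReal

/-- shift inequality for a bounded monotone function -/
theorem shift_int {H : ℝ → ℝ} {M ω p q : ℝ} (hH : Monotone H) (h0 : ∀ r, 0 ≤ H r) (h1 : ∀ r, H r ≤ M)
    (hω : 0 ≤ ω) (_hpq : p ≤ q) : ∫ r in p..q, (H (r + ω) - H r) ≤ ω * M := by
  have hi : ∀ u v : ℝ, IntervalIntegrable H volume u v := fun u v =>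
    (hH.monotoneOn _).intervalIntegrable
  have hi2 : ∀ u v : ℝ, IntervalIntegrable (fun r => H (r + ω)) volume u v := fun u v =>
    ((hH.comp (fun _ _ h => by gcongr)).monotoneOn _).intervalIntegrable
  have e1 : ∫ r in p..q, (H (r + ω) - H r) = (∫ r in q..(q + ω), H r) - ∫ r in p..(p + ω), H r := by
    rw [intervalIntegral.integral_sub (hi2 _ _) (hi _ _), intervalIntegral.integral_comp_add_right]
    have a1 := intervalIntegral.integral_add_adjacent_intervals (hi (p + ω) q) (hi q (q + ω))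
    have a2 := intervalIntegral.integral_add_adjacent_intervals (hi p (p + ω)) (hi (p + ω) q)
    linarith
  rw [e1]
  have b1 : ∫ r in q..(q + ω), H r ≤ ω * M := by
    have : ∫ _r in q..(q + ω), M = ω * M := by
      rw [intervalIntegral.integral_const, smul_eq_mul]; ring
    rw [← this]
    exact intervalIntegral.integral_mono_on (by linarith) (hi _ _) (by simp) fun x _ => h1 x
  have b2 : 0 ≤ ∫ r in p..(p + ω), H r :=
    intervalIntegral.integral_nonneg (by linarith) fun x _ => h0 x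
  linarith

/-- summable bad cells: almost everywhere the normalised increments tend to zero -/
theorem ae_incr {H : ℕ → ℝ → ℝ} {M ω e : ℕ → ℝ} (hH : ∀ j, Monotone (H j)) (h0 : ∀ j r, 0 ≤ H j r)
    (h1 : ∀ j r, H j r ≤ M j) (hω : ∀ j, 0 ≤ ω j) (he : ∀ j, 0 < e j)
    (hs : Summable fun j => ω j * M j / e j) :
    ∀ᵐ r : ℝ, Tendsto (fun j => (H j (r + ω j) - H j r) / e j) atTop (𝓝 0) := by
  have hM : ∀ j, 0 ≤ M j := fun j => (h0 j 0).trans (h1 j 0)
  have hf0 : ∀ j r, 0 ≤ (H j (r + ω j) - H j r) / e j := fun j r =>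
    div_nonneg (sub_nonneg.2 (hH j (by linarith [hω j]))) (he j).le
  have hmeas : ∀ j, Measurable fun r => (H j (r + ω j) - H j r) / e j := fun j =>
    ((((hH j).measurable.comp (measurable_id.add_const _)).sub (hH j).measurable).div_const _)
  have key : ∀ N : ℕ, ∀ᵐ r : ℝ, r ∈ Icc (-(N : ℝ)) N →
      Tendsto (fun j => (H j (r + ω j) - H j r) / e j) atTop (𝓝 0) := by
    intro N
    have hN : -(N : ℝ) ≤ N := by
      have : (0 : ℝ) ≤ N := Nat.cast_nonneg N
      linarith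
    have hb : ∀ j, ∫⁻ r in Icc (-(N : ℝ)) N, ENNReal.ofReal ((H j (r + ω j) - H j r) / e j)
        ≤ ENNReal.ofReal (ω j * M j / e j) := by
      intro j
      have hii : IntervalIntegrable (fun r => (H j (r + ω j) - H j r) / e j) volume (-(N : ℝ)) N := by
        have i1 : IntervalIntegrable (H j) volume (-(N : ℝ)) N := ((hH j).monotoneOn _).intervalIntegrable
        have i2 : IntervalIntegrable (fun r => H j (r + ω j)) volume (-(N : ℝ)) N :=
          (((hH j).comp (fun _ _ h => by gcongr)).monotoneOn _).intervalIntegrable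
        exact (i2.sub i1).div_const _
      have hint : IntegrableOn (fun r => (H j (r + ω j) - H j r) / e j) (Icc (-(N : ℝ)) N) := by
        rw [← intervalIntegrable_iff_integrableOn_Icc_of_le hN]; exact hii
      rw [← ofReal_integral_eq_lintegral_ofReal hint (Eventually.of_forall fun r => hf0 j r)]
      apply ENNReal.ofReal_le_ofReal
      rw [integral_Icc_eq_integral_Ioc, ← intervalIntegral.integral_of_le hN,
        intervalIntegral.integral_div]
      exact div_le_div_of_nonneg_right (shift_int (hH j) (h0 j) (h1 j) (hω j) hN) (he j).le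
    have hsum : ∫⁻ r in Icc (-(N : ℝ)) N, ∑' j, ENNReal.ofReal ((H j (r + ω j) - H j r) / e j) ≠ ∞ := by
      rw [lintegral_tsum fun j => (hmeas j).ennreal_ofReal.aemeasurable]
      refine ne_of_lt (lt_of_le_of_lt (ENNReal.tsum_le_tsum hb) ?_)
      rw [← ENNReal.ofReal_tsum_of_nonneg
        (fun j => div_nonneg (mul_nonneg (hω j) (hM j)) (he j).le) hs]
      exact ENNReal.ofReal_lt_top
    have hlt := ae_lt_top' (μ := volume.restrict (Icc (-(N : ℝ)) N))
      (Measurable.tsum fun j => (hmeas j).ennreal_ofReal).aemeasurable hsum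
    rw [ae_restrict_iff' measurableSet_Icc] at hlt
    filter_upwards [hlt] with r hr hrN
    have h2 := ENNReal.tendsto_atTop_zero_of_tsum_ne_top (hr hrN).ne
    have h3 : Tendsto (fun j => (ENNReal.ofReal ((H j (r + ω j) - H j r) / e j)).toReal) atTop
        (𝓝 (0 : ℝ≥0∞).toReal) := (ENNReal.tendsto_toReal ENNReal.zero_ne_top).comp h2
    refine (h3.congr fun j => ?_)
    exact ENNReal.toReal_ofReal (hf0 j r)
  have hall : ∀ᵐ r : ℝ, ∀ N : ℕ, r ∈ Icc (-(N : ℝ)) N →
      Tendsto (fun j => (H j (r + ω j) - H j r) / e j) atTop (𝓝 0) := ae_all_iff.2 key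
  filter_upwards [hall] with r hr
  obtain ⟨N, hN⟩ := exists_nat_ge |r|
  exact hr N ⟨by linarith [neg_abs_le r], (le_abs_self r).trans hN⟩

/-- **(R1) at almost every window** (39b / 32c sect. 7). `F j c = I(x_(E j) ; κ_c)`, nondecreasing in `c ∈ [0,1]`, at most
`m E j`, `Σ E j < ∞`. -/
theorem r1_ae {F : ℕ → ℝ → ℝ} {E : ℕ → ℝ} {m : ℝ} (hE : ∀ j, 0 < E j) (hs : Summable E)
    (hF : ∀ j, MonotoneOn (F j) (Icc 0 1)) (h0 : ∀ j, ∀ c ∈ Icc (0 : ℝ) 1, 0 ≤ F j c)
    (h1 : ∀ j, ∀ c ∈ Icc (0 : ℝ) 1, F j c ≤ m * E j) :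
    ∀ᵐ c : ℝ, c ∈ Ioo (0 : ℝ) 1 → ∀ A : ℕ,
      Tendsto (fun j => (F j (c + A * E j) - F j c) / E j) atTop (𝓝 0) := by
  let H : ℕ → ℝ → ℝ := fun j r => F j (max 0 (min 1 r))
  have hmem : ∀ r : ℝ, max 0 (min 1 r) ∈ Icc (0 : ℝ) 1 := fun r =>
    ⟨le_max_left _ _, max_le zero_le_one (min_le_left _ _)⟩
  have hH : ∀ j, Monotone (H j) := fun j r r' h =>
    hF j (hmem r) (hmem r') (max_le_max le_rfl (min_le_min le_rfl h))
  have hall : ∀ᵐ c : ℝ, ∀ A : ℕ,
      Tendsto (fun j => (H j (c + A * E j) - H j c) / E j) atTop (𝓝 0) := by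
    rw [ae_all_iff]
    intro A
    refine ae_incr (M := fun j => m * E j) hH (fun j r => h0 j _ (hmem r)) (fun j r => h1 j _ (hmem r))
      (fun j => mul_nonneg (Nat.cast_nonneg A) (hE j).le) hE ?_
    refine ((hs.mul_left ((A : ℝ) * m))).congr fun j => ?_
    have := (hE j).ne'
    field_simp
  filter_upwards [hall] with c hc hcI A
  refine (hc A).congr' ?_
  have hE0 : Tendsto (fun j => (A : ℝ) * E j) atTop (𝓝 0) := by
    simpa using hs.tendsto_atTop_zero.const_mul (A : ℝ)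
  have hev : ∀ᶠ j in atTop, (A : ℝ) * E j < 1 - c :=
    hE0.eventually (gt_mem_nhds (sub_pos.2 hcI.2))
  filter_upwards [hev] with j hj
  have hAE : 0 ≤ (A : ℝ) * E j := mul_nonneg (Nat.cast_nonneg A) (hE j).le
  have e1 : max 0 (min 1 (c + A * E j)) = c + A * E j := by
    rw [min_eq_right (by linarith), max_eq_right (by linarith [hcI.1])]
  have e2 : max 0 (min 1 c) = c := by
    rw [min_eq_right hcI.2.le, max_eq_right hcI.1.le]
  show (F j (max 0 (min 1 (c + A * E j))) - F j (max 0 (min 1 c))) / E j = _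
  rw [e1, e2]

/-- a strictly monotone function has uniformly positive increments -/
theorem incr_pos {cs : ℝ → ℝ} {a b ω : ℝ} (hcs : StrictMonoOn cs (Icc a b)) (hω : 0 < ω) :
    ∃ δ > 0, ∀ r, a ≤ r → r + ω ≤ b → cs r + δ ≤ cs (r + ω) := by
  by_cases hab : a + ω ≤ b
  swap
  · exact ⟨1, one_pos, fun r h1 h2 => absurd (by linarith) hab⟩
  obtain ⟨N, hN⟩ := exists_nat_ge ((b - a) / (ω / 2))
  have hN' : b - a ≤ N * (ω / 2) := by rwa [div_le_iff₀ (half_pos hω)] at hN
  -- grid points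
  let x : ℕ → ℝ := fun i => a + i * (ω / 2)
  let g : ℕ → ℝ := fun i => if x (i + 1) ≤ b then cs (x (i + 1)) - cs (x i) else 1
  have hx0 : ∀ i, a ≤ x i := fun i => by
    have : 0 ≤ (i : ℝ) * (ω / 2) := by positivity
    show a ≤ a + i * (ω / 2)
    linarith
  have hxs : ∀ i, x (i + 1) = x i + ω / 2 := fun i => by
    show a + ((i + 1 : ℕ) : ℝ) * (ω / 2) = a + i * (ω / 2) + ω / 2
    push_cast; ring
  have hg : ∀ i, 0 < g i := by
    intro i
    show 0 < if x (i + 1) ≤ b then cs (x (i + 1)) - cs (x i) else 1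
    split_ifs with h
    · have : cs (x i) < cs (x (i + 1)) := hcs ⟨hx0 i, by rw [hxs] at h; linarith⟩ ⟨hx0 _, h⟩ (by
        rw [hxs]; linarith)
      linarith
    · exact one_pos
  have hne : (Finset.range (N + 1)).Nonempty := ⟨0, by simp⟩
  refine ⟨(Finset.range (N + 1)).inf' hne g, ?_, ?_⟩
  · rw [gt_iff_lt, Finset.lt_inf'_iff]
    exact fun i _ => hg i
  · intro r hr hrω
    -- the first grid point above r
    obtain ⟨i, hi1, hi2⟩ : ∃ i : ℕ, r ≤ x i ∧ x i < r + ω / 2 := by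
      refine ⟨⌈(r - a) / (ω / 2)⌉₊, ?_, ?_⟩
      · have := Nat.le_ceil ((r - a) / (ω / 2))
        rw [div_le_iff₀ (half_pos hω)] at this
        show r ≤ a + _ * (ω / 2)
        linarith
      · have := Nat.ceil_lt_add_one (a := (r - a) / (ω / 2)) (div_nonneg (by linarith) (half_pos hω).le)
        have h2 : (⌈(r - a) / (ω / 2)⌉₊ : ℝ) * (ω / 2) < ((r - a) / (ω / 2) + 1) * (ω / 2) :=
          mul_lt_mul_of_pos_right this (half_pos hω)
        have h3 : ((r - a) / (ω / 2) + 1) * (ω / 2) = r - a + ω / 2 := by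
          field_simp
        show a + _ * (ω / 2) < r + ω / 2
        linarith
    have hi3 : x (i + 1) ≤ r + ω := by rw [hxs]; linarith
    have hiN : i ∈ Finset.range (N + 1) := by
      rw [Finset.mem_range]
      by_contra hc
      have hc' : ((N : ℝ) + 1) ≤ i := by exact_mod_cast not_lt.1 hc
      have h4 : ((N : ℝ) + 1) * (ω / 2) ≤ i * (ω / 2) := mul_le_mul_of_nonneg_right hc' (half_pos hω).le
      have h5 : a + (i : ℝ) * (ω / 2) < r + ω / 2 := hi2
      have h6 : ((N : ℝ) + 1) * (ω / 2) = N * (ω / 2) + ω / 2 := by ring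
      linarith
    have h6 : (Finset.range (N + 1)).inf' hne g ≤ g i := Finset.inf'_le _ hiN
    have h7 : g i = cs (x (i + 1)) - cs (x i) := if_pos (hi3.trans hrω)
    have h8 : cs r ≤ cs (x i) := hcs.monotoneOn ⟨hr, by linarith⟩ ⟨hx0 i, by linarith [hxs i]⟩ hi1
    have h9 : cs (x (i + 1)) ≤ cs (r + ω) := hcs.monotoneOn ⟨hx0 _, hi3.trans hrω⟩ ⟨by linarith, hrω⟩ hi3
    linarith

/-- **(R1) at almost every level** (55b (4.2)). `cs = c_*` strictly increasing on `[a, b]` (the thickness is continuous);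
along a subsequence the windows `cs r` are not bad. -/
theorem r1_level {F : ℕ → ℝ → ℝ} {E : ℕ → ℝ} {m : ℝ} {cs : ℝ → ℝ} {a b : ℝ} (hab : a ≤ b)
    (hcs : StrictMonoOn cs (Icc a b)) (hcs01 : ∀ r ∈ Icc a b, cs r ∈ Icc (0 : ℝ) 1)
    (hE : ∀ j, 0 < E j) (hE0 : Tendsto E atTop (𝓝 0))
    (hF : ∀ j, MonotoneOn (F j) (Icc 0 1)) (h0 : ∀ j, ∀ c ∈ Icc (0 : ℝ) 1, 0 ≤ F j c)
    (h1 : ∀ j, ∀ c ∈ Icc (0 : ℝ) 1, F j c ≤ m * E j) :
    ∃ φ : ℕ → ℕ, StrictMono φ ∧ ∀ᵐ r : ℝ, r ∈ Ioo a b → ∀ A : ℕ,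
      Tendsto (fun k => (F (φ k) (cs r + A * E (φ k)) - F (φ k) (cs r)) / E (φ k)) atTop (𝓝 0) := by
  -- the subsequence
  have hδ : ∀ k : ℕ, ∃ δ > 0, ∀ r, a ≤ r → r + (1 / 2 : ℝ) ^ k ≤ b → cs r + δ ≤ cs (r + (1 / 2 : ℝ) ^ k) :=
    fun k => incr_pos hcs (by positivity)
  choose δ hδ0 hδ1 using hδ
  have hex : ∀ k : ℕ, ∀ᶠ j in atTop, (k : ℝ) * E j ≤ δ k := by
    intro k
    have : Tendsto (fun j => (k : ℝ) * E j) atTop (𝓝 0) := by simpa using hE0.const_mul (k : ℝ)
    exact (this.eventually (gt_mem_nhds (hδ0 k))).mono fun j hj => hj.le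
  obtain ⟨φ, hφ, hφ1⟩ := extraction_forall_of_eventually hex
  refine ⟨φ, hφ, ?_⟩
  have hcl : ∀ r : ℝ, max a (min b r) ∈ Icc a b := fun r =>
    ⟨le_max_left _ _, max_le hab (min_le_left _ _)⟩
  let H : ℕ → ℝ → ℝ := fun k r => F (φ k) (cs (max a (min b r)))
  have hH : ∀ k, Monotone (H k) := fun k r r' h =>
    hF _ (hcs01 _ (hcl r)) (hcs01 _ (hcl r'))
      (hcs.monotoneOn (hcl r) (hcl r') (max_le_max le_rfl (min_le_min le_rfl h)))
  have hae := ae_incr (H := H) (M := fun k => m * E (φ k)) (ω := fun k => (1 / 2 : ℝ) ^ k)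
    (e := fun k => E (φ k)) hH (fun k r => h0 _ _ (hcs01 _ (hcl r))) (fun k r => h1 _ _ (hcs01 _ (hcl r)))
    (fun k => by positivity) (fun k => hE _) (by
      have : Summable fun k : ℕ => m * (1 / 2 : ℝ) ^ k := (summable_geometric_two).mul_left m
      refine this.congr fun k => ?_
      have := (hE (φ k)).ne'
      field_simp)
  filter_upwards [hae] with r hr hrI A
  -- compare
  have hp : Tendsto (fun k : ℕ => r + (1 / 2 : ℝ) ^ k) atTop (𝓝 (r + 0)) :=
    tendsto_const_nhds.add (tendsto_pow_atTop_nhds_zero_of_lt_one (by norm_num) (by norm_num))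
  rw [add_zero] at hp
  have hev : ∀ᶠ k : ℕ in atTop, r + (1 / 2 : ℝ) ^ k < b := hp.eventually (gt_mem_nhds hrI.2)
  have hev2 : ∀ᶠ k : ℕ in atTop, A ≤ k := eventually_ge_atTop A
  refine tendsto_of_tendsto_of_tendsto_of_le_of_le' tendsto_const_nhds hr ?_ ?_
  · filter_upwards [hev, hev2] with k hk hAk
    have hAE : 0 ≤ (A : ℝ) * E (φ k) := mul_nonneg (Nat.cast_nonneg A) (hE _).le
    have h2 : (A : ℝ) * E (φ k) ≤ δ k := (mul_le_mul_of_nonneg_right (by exact_mod_cast hAk) (hE _).le).trans (hφ1 k)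
    have h3 : cs r + A * E (φ k) ≤ cs (r + (1 / 2 : ℝ) ^ k) := by
      have := hδ1 k r hrI.1.le hk.le
      linarith
    have hr1 : r + (1 / 2 : ℝ) ^ k ∈ Icc a b := ⟨by
      have : (0 : ℝ) < (1 / 2 : ℝ) ^ k := by positivity
      linarith [hrI.1], hk.le⟩
    have h4 := hcs01 r ⟨hrI.1.le, hrI.2.le⟩
    have h5 := hcs01 _ hr1
    exact div_nonneg (sub_nonneg.2 (hF _ h4 ⟨by linarith [h4.1], by linarith [h5.2]⟩ (by linarith)))
      (hE _).le
  · filter_upwards [hev, hev2] with k hk hAk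
    have hAE : 0 ≤ (A : ℝ) * E (φ k) := mul_nonneg (Nat.cast_nonneg A) (hE _).le
    have h2 : (A : ℝ) * E (φ k) ≤ δ k := (mul_le_mul_of_nonneg_right (by exact_mod_cast hAk) (hE _).le).trans (hφ1 k)
    have h3 : cs r + A * E (φ k) ≤ cs (r + (1 / 2 : ℝ) ^ k) := by
      have := hδ1 k r hrI.1.le hk.le
      linarith
    have hr1 : r + (1 / 2 : ℝ) ^ k ∈ Icc a b := ⟨by
      have : (0 : ℝ) < (1 / 2 : ℝ) ^ k := by positivity
      linarith [hrI.1], hk.le⟩
    have h4 := hcs01 r ⟨hrI.1.le, hrI.2.le⟩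
    have h5 := hcs01 _ hr1
    have e1 : max a (min b (r + (1 / 2 : ℝ) ^ k)) = r + (1 / 2 : ℝ) ^ k := by
      rw [min_eq_right hk.le, max_eq_right hr1.1]
    have e2 : max a (min b r) = r := by
      rw [min_eq_right hrI.2.le, max_eq_right hrI.1.le]
    show _ ≤ (F (φ k) (cs (max a (min b (r + (1 / 2 : ℝ) ^ k)))) - F (φ k) (cs (max a (min b r)))) / E (φ k)
    rw [e1, e2]
    refine div_le_div_of_nonneg_right (sub_le_sub_right ?_ _) (hE _).le
    exact hF _ ⟨by linarith [h4.1], by linarith [h5.2]⟩ h5 h3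

end Pool.Agent.Helper54.NS
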