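import Pool.Agent.Helper54.NS.Levels

/-! Levels with constant rates (ns_notes_55b (4.1)). -/

namespace Pool.Agent.Helper54.NS

open MeasureTheory Set Filter Topology
open scoped ENNReal NNReal

/-- derivatives of functions with comparable increments -/
theorem deriv_le_of_incr {g g' : ℝ → ℝ} {r h : ℝ} (hh : 0 < h)
    (hle : ∀ s, r ≤ s → s ≤ r + h → g s - g r ≤ g' s - g' r)
    (hg : DifferentiableAt ℝ g r) (hg' : DifferentiableAt ℝ g' r) : deriv g r ≤ deriv g' r := by
  have h1 : Tendsto (slope g r) (𝓝[>] r) (𝓝 (deriv g r)) :=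
    (hasDerivAt_iff_tendsto_slope.1 hg.hasDerivAt).mono_left (nhdsWithin_mono _ fun x hx => (ne_of_gt hx))
  have h2 : Tendsto (slope g' r) (𝓝[>] r) (𝓝 (deriv g' r)) :=
    (hasDerivAt_iff_tendsto_slope.1 hg'.hasDerivAt).mono_left (nhdsWithin_mono _ fun x hx => (ne_of_gt hx))
  refine le_of_tendsto_of_tendsto h1 h2 ?_
  filter_upwards [Ioo_mem_nhdsGT (show r < r + h by linarith)] with x hx
  rw [slope_def_field, slope_def_field]
  exact div_le_div_of_nonneg_right (hle x hx.1.le hx.2.le) (sub_pos.2 hx.1).le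

/-- a derivative at `r` controls the increments to the right of `r` -/
theorem incr_of_deriv {g : ℝ → ℝ} {g' r : ℝ} (hg : HasDerivAt g g' r) {ε : ℝ} (hε : 0 < ε) :
    ∃ h₀ > 0, ∀ h, 0 < h → h ≤ h₀ → ∀ u v, 0 ≤ u → u ≤ v → v ≤ h →
      |g (r + v) - g (r + u) - g' * (v - u)| ≤ ε * h := by
  rw [hasDerivAt_iff_isLittleO] at hg
  have h1 := hg.def (half_pos hε)
  rw [Metric.eventually_nhds_iff] at h1
  obtain ⟨d, hd, h2⟩ := h1
  refine ⟨d / 2, half_pos hd, fun h hh hh0 u v hu huv hv => ?_⟩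
  have key : ∀ x, 0 ≤ x → x ≤ h → |g (r + x) - g r - x * g'| ≤ ε / 2 * x := by
    intro x hx0 hx
    have h3 := h2 (y := r + x) (by rw [Real.dist_eq, add_sub_cancel_left, abs_of_nonneg hx0]; linarith)
    simpa [abs_of_nonneg hx0] using h3
  have a := key v (hu.trans huv) hv
  have b := key u hu (huv.trans hv)
  rw [abs_le] at a b ⊢
  have e : g (r + v) - g (r + u) - g' * (v - u) =
      (g (r + v) - g r - v * g') - (g (r + u) - g r - u * g') := by ring
  rw [e]
  have h4 : ε / 2 * v + ε / 2 * u ≤ ε * h := by nlinarith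
  constructor <;> linarith [a.1, a.2, b.1, b.2]

/-- **55b (4.1).** `G c r = h(P_r | κ_c, t)`, Lipschitz in `r`, increments nonincreasing in `c`; `cs = c_*` strictly
increasing on `[a, b]`. There is a rate `f` such that at almost every level `r` all increments of `G (cs r) ·` on
`(r, r + h)` are linear with slope `f r` up to `o(h)`; `f` is at most the rate of every coarser label. -/
theorem level_rates {G : ℝ → ℝ → ℝ} {cs : ℝ → ℝ} {K : ℝ≥0} {a b : ℝ} (hab : a < b)
    (hL : ∀ c ∈ Icc (0 : ℝ) 1, LipschitzOnWith K (G c) (Icc a b))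
    (hG : ∀ c c', 0 ≤ c → c ≤ c' → c' ≤ 1 → ∀ r s, a ≤ r → r ≤ s → s ≤ b → G c' s - G c' r ≤ G c s - G c r)
    (hcs : StrictMonoOn cs (Icc a b)) (hcs01 : ∀ r ∈ Icc a b, cs r ∈ Icc (0 : ℝ) 1) :
    ∃ f : ℝ → ℝ, Measurable f ∧ (∀ r, |f r| ≤ K) ∧
      (∀ᵐ r : ℝ, r ∈ Ioo a b → ∀ ε > 0, ∃ h₀ > 0, ∀ h, 0 < h → h ≤ h₀ → ∀ u v, 0 ≤ u → u ≤ v → v ≤ h →
        |G (cs r) (r + v) - G (cs r) (r + u) - f r * (v - u)| ≤ ε * h) ∧
      (∀ᵐ r : ℝ, r ∈ Ioo a b → ∀ q : ℚ, 0 ≤ q → (q : ℝ) < cs r → f r ≤ deriv (G q) r) := by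
  -- a measurable version of `cs`
  obtain ⟨cm, hcm, hcme⟩ := aemeasurable_restrict_of_monotoneOn (μ := volume) (measurableSet_Ioo (a := a) (b := b))
    (hcs.monotoneOn.mono Ioo_subset_Icc_self)
  rw [EventuallyEq, ae_restrict_iff' measurableSet_Ioo] at hcme
  let D : ℚ → ℝ → ℝ := fun q r => max (-K) (min K (deriv (G q) r))
  have hD : ∀ q, Measurable (D q) := fun q =>
    measurable_const.max (measurable_const.min (measurable_deriv _))
  have hDb : ∀ q r, |D q r| ≤ K := fun q r => abs_le.2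
    ⟨le_max_left _ _, max_le (by linarith [NNReal.coe_nonneg K]) (min_le_left _ _)⟩
  let φ : ℚ → ℝ → ℝ := fun q r => if 0 ≤ q ∧ (q : ℝ) < cm r then D q r else K
  have hφ : ∀ q, Measurable (φ q) := by
    intro q
    refine Measurable.ite ?_ (hD q) measurable_const
    by_cases hq : 0 ≤ q
    · have : {r | 0 ≤ q ∧ (q : ℝ) < cm r} = {r | (q : ℝ) < cm r} := by ext r; simp [hq]
      rw [this]
      exact measurableSet_lt measurable_const hcm
    · have : {r | 0 ≤ q ∧ (q : ℝ) < cm r} = ∅ := by ext r; simp [hq]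
      rw [this]; exact MeasurableSet.empty
  have hφb : ∀ q r, -(K : ℝ) ≤ φ q r := by
    intro q r
    show -(K : ℝ) ≤ if 0 ≤ q ∧ (q : ℝ) < cm r then D q r else K
    split_ifs
    · exact (abs_le.1 (hDb q r)).1
    · linarith [NNReal.coe_nonneg K]
  have hbdd : ∀ r, BddBelow (range fun q => φ q r) := fun r => ⟨-K, by rintro _ ⟨q, rfl⟩; exact hφb q r⟩
  let f : ℝ → ℝ := fun r => ⨅ q, φ q r
  have hf : Measurable f := Measurable.iInf fun q => hφ q
  have hfb : ∀ r, |f r| ≤ K := by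
    intro r
    refine abs_le.2 ⟨le_ciInf fun q => hφb q r, ?_⟩
    refine (ciInf_le (hbdd r) (-1)).trans ?_
    show (if (0 : ℚ) ≤ -1 ∧ ((-1 : ℚ) : ℝ) < cm r then D (-1) r else K) ≤ K
    rw [if_neg (by norm_num)]
  have hfloc : LocallyIntegrable f volume :=
    (locallyIntegrable_const (K : ℝ)).mono hf.aestronglyMeasurable
      (Eventually.of_forall fun r => by rw [Real.norm_eq_abs, Real.norm_eq_abs, NNReal.abs_eq]; exact hfb r)
  have hfii : ∀ u v : ℝ, IntervalIntegrable f volume u v := fun u v =>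
    intervalIntegrable_iff.mpr ((hfloc.integrableOn_isCompact isCompact_uIcc).mono_set uIoc_subset_uIcc)
  -- differentiability for a single label
  have hdiff : ∀ c ∈ Icc (0 : ℝ) 1, ∀ᵐ r : ℝ, r ∈ Ioo a b → DifferentiableAt ℝ (G c) r := by
    intro c hc
    have hac : AbsolutelyContinuousOnInterval (G c) a b := by
      apply LipschitzOnWith.absolutelyContinuousOnInterval (K := K)
      rw [uIcc_of_le hab.le]; exact hL c hc
    filter_upwards [hac.ae_differentiableAt] with r hr hrI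
    exact hr (by rw [uIcc_of_le hab.le]; exact ⟨hrI.1.le, hrI.2.le⟩)
  have hdb : ∀ c ∈ Icc (0 : ℝ) 1, ∀ r ∈ Ioo a b, |deriv (G c) r| ≤ K := by
    intro c hc r hr
    exact norm_deriv_le_of_lipschitzOn (Icc_mem_nhds hr.1 hr.2) (hL c hc)
  have hQ : ∀ᵐ r : ℝ, ∀ q : ℚ, (q : ℝ) ∈ Icc (0 : ℝ) 1 → r ∈ Ioo a b → DifferentiableAt ℝ (G q) r := by
    rw [ae_all_iff]
    intro q
    by_cases hq : (q : ℝ) ∈ Icc (0 : ℝ) 1
    · filter_upwards [hdiff q hq] with r hr _ using hr
    · exact Eventually.of_forall fun r h => absurd h hq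
  -- values of `φ`
  have hφv : ∀ r ∈ Ioo a b, cs r = cm r → ∀ q : ℚ, 0 ≤ q → (q : ℝ) < cs r → φ q r = deriv (G q) r := by
    intro r hr he q hq hqc
    show (if 0 ≤ q ∧ (q : ℝ) < cm r then D q r else (K : ℝ)) = _
    rw [if_pos ⟨hq, he ▸ hqc⟩]
    have hq01 : (q : ℝ) ∈ Icc (0 : ℝ) 1 :=
      ⟨by exact_mod_cast hq, hqc.le.trans (hcs01 r ⟨hr.1.le, hr.2.le⟩).2⟩
    have := abs_le.1 (hdb q hq01 r hr)
    show max (-(K : ℝ)) (min K (deriv (G q) r)) = _
    rw [min_eq_right this.2, max_eq_right this.1]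
  refine ⟨f, hf, hfb, ?_, ?_⟩
  · filter_upwards [LocallyIntegrable.ae_hasDerivAt_integral hfloc, hQ, hcme] with r hΦ hq hcr hrI ε hε
    have hcr' : cs r ∈ Icc (0 : ℝ) 1 := hcs01 r ⟨hrI.1.le, hrI.2.le⟩
    have hcre : cs r = cm r := hcr hrI
    -- lower bound
    obtain ⟨h1, hh1, H1⟩ := incr_of_deriv (hΦ a) (ε := ε) hε
    -- upper bound
    obtain ⟨h2, hh2, H2⟩ : ∃ h₀ > 0, ∀ h, 0 < h → h ≤ h₀ → ∀ u v, 0 ≤ u → u ≤ v → v ≤ h →
        G (cs r) (r + v) - G (cs r) (r + u) ≤ f r * (v - u) + ε * h := by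
      obtain ⟨q, hq1⟩ := exists_lt_of_ciInf_lt (show f r < f r + ε / 2 by linarith)
      by_cases hqc : 0 ≤ q ∧ (q : ℝ) < cs r
      · have hq01 : (q : ℝ) ∈ Icc (0 : ℝ) 1 := ⟨by exact_mod_cast hqc.1, hqc.2.le.trans hcr'.2⟩
        rw [hφv r hrI hcre q hqc.1 hqc.2] at hq1
        obtain ⟨h3, hh3, H3⟩ := incr_of_deriv (hq q hq01 hrI).hasDerivAt (half_pos hε)
        refine ⟨min h3 (b - r), lt_min hh3 (sub_pos.2 hrI.2), fun h hh hh0 u v hu huv hv => ?_⟩
        have hb' : h ≤ b - r := hh0.trans (min_le_right _ _)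
        have i1 := hG q (cs r) hq01.1 hqc.2.le hcr'.2 (r + u) (r + v) (by linarith [hrI.1]) (by linarith)
          (by linarith)
        have i2 := (abs_le.1 (H3 h hh (hh0.trans (min_le_left _ _)) u v hu huv hv)).2
        have i3 : deriv (G q) r * (v - u) ≤ (f r + ε / 2) * (v - u) :=
          mul_le_mul_of_nonneg_right hq1.le (by linarith)
        have i4 : ε / 2 * (v - u) ≤ ε / 2 * h := mul_le_mul_of_nonneg_left (by linarith) (by linarith)
        linarith
      · have hqK : φ q r = K := if_neg (by rwa [← hcre])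
        have hq1' : (K : ℝ) < f r + ε / 2 := by rw [← hqK]; exact hq1
        refine ⟨b - r, sub_pos.2 hrI.2, fun h hh hh0 u v hu huv hv => ?_⟩
        have i1 := (hL (cs r) hcr').dist_le_mul (r + v) ⟨by linarith [hrI.1], by linarith⟩ (r + u)
          ⟨by linarith [hrI.1], by linarith⟩
        rw [Real.dist_eq, Real.dist_eq, show r + v - (r + u) = v - u by ring,
          abs_of_nonneg (sub_nonneg.2 huv)] at i1
        have i2 := (le_abs_self _).trans i1
        have i3 : (K : ℝ) * (v - u) ≤ (f r + ε / 2) * (v - u) :=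
          mul_le_mul_of_nonneg_right hq1'.le (by linarith)
        have i4 : ε / 2 * (v - u) ≤ ε * h := by nlinarith
        linarith
    refine ⟨min h1 (min h2 (b - r)), lt_min hh1 (lt_min hh2 (sub_pos.2 hrI.2)), ?_⟩
    intro h hh hh0 u v hu huv hv
    have hb1 : h ≤ h1 := hh0.trans (min_le_left _ _)
    have hb2 : h ≤ h2 := hh0.trans ((min_le_right _ _).trans (min_le_left _ _))
    have hb3 : h ≤ b - r := hh0.trans ((min_le_right _ _).trans (min_le_right _ _))
    have hlow : ∫ x in (r + u)..(r + v), f x ≤ G (cs r) (r + v) - G (cs r) (r + u) := by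
      have hac : AbsolutelyContinuousOnInterval (G (cs r)) (r + u) (r + v) := by
        apply LipschitzOnWith.absolutelyContinuousOnInterval (K := K)
        rw [uIcc_of_le (by linarith)]
        exact (hL _ hcr').mono (Icc_subset_Icc (by linarith [hrI.1]) (by linarith))
      rw [← hac.integral_deriv_eq_sub]
      refine intervalIntegral.integral_mono_ae_restrict (by linarith) (hfii _ _)
        hac.intervalIntegrable_deriv ?_
      rw [EventuallyLE, ae_restrict_iff' measurableSet_Icc]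
      have he : ∀ᵐ x : ℝ, x ≠ r ∧ x ≠ b := by
        rw [ae_iff]
        refine measure_mono_null (t := {r, b}) ?_ (Set.Finite.measure_zero (by simp) _)
        intro x hx
        simp only [mem_ofPred_eq, not_and_or, not_not] at hx
        simpa using hx
      filter_upwards [hQ, hcme, he, hdiff _ hcr'] with s hs1 hs2 hs3 hs4 hs
      have hsI : s ∈ Ioo a b := ⟨by linarith [hrI.1, hs.1], lt_of_le_of_ne (by linarith [hs.2]) hs3.2⟩
      have hrs : r < s := lt_of_le_of_ne (by linarith [hs.1]) (Ne.symm hs3.1)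
      have hc12 : cs r < cs s := hcs ⟨hrI.1.le, hrI.2.le⟩ ⟨hsI.1.le, hsI.2.le⟩ hrs
      obtain ⟨q, hq1, hq2⟩ := exists_rat_btwn hc12
      have hq0 : (0 : ℝ) ≤ q := hcr'.1.trans hq1.le
      have hq01 : (q : ℝ) ∈ Icc (0 : ℝ) 1 := ⟨hq0, hq2.le.trans (hcs01 s ⟨hsI.1.le, hsI.2.le⟩).2⟩
      have i1 : f s ≤ φ q s := ciInf_le (hbdd s) q
      rw [hφv s hsI (hs2 hsI) q (by exact_mod_cast hq0) hq2] at i1
      refine i1.trans (deriv_le_of_incr (sub_pos.2 hsI.2) (fun x hx1 hx2 => ?_) (hs1 q hq01 hsI) (hs4 hsI))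
      exact hG (cs r) q hcr'.1 hq1.le hq01.2 s x hsI.1.le hx1 (by linarith)
    have hup := H2 h hh hb2 u v hu huv hv
    have hl := H1 h hh hb1 u v hu huv hv
    have e1 : (∫ x in a..(r + v), f x) - ∫ x in a..(r + u), f x = ∫ x in (r + u)..(r + v), f x :=
      intervalIntegral.integral_interval_sub_left (hfii _ _) (hfii _ _)
    rw [abs_le] at hl ⊢
    constructor <;> linarith [hl.1]
  · filter_upwards [hcme] with r hcr hrI q hq0 hqc
    rw [← hφv r hrI (hcr hrI) q hq0 hqc]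
    exact ciInf_le (hbdd r) q

end Pool.Agent.Helper54.NS
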